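import Pool.Agent.H78.KP.Stmts
import Pool.Agent.H44.KG.SCL

/-!
# Project KP, module T3S: scaling of the third moments
-/

set_option autoImplicit false

open MeasureTheory Set Filter Topology
open scoped ContDiff

namespace Pool.Agent.H78.KP

open Pool.Agent.H84 Pool.Agent.H84.Sym Pool.Agent.H84.Sym.P2x Pool.Agent.H19.KL
open Pool.Agent.H73.KG Pool.Agent.H20.KH

variable {E : Type} [NormedAddCommGroup E] [InnerProductSpace ℝ E]
    [FiniteDimensional ℝ E] [MeasurableSpace E] [BorelSpace E]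

theorem T3S_pp_mono {U : E → ℝ} {t t' : ℝ} (h : PP U t') (ht : 0 < t) (htt : t ≤ t') :
    PP U t := by
  obtain ⟨⟨C, hU⟩, hp⟩ := h
  refine ⟨⟨C, ?_⟩, hp⟩
  exact
    { smooth := hU.smooth
      pos := ht
      hess := fun x v => (mul_le_mul_of_nonneg_right htt (sq_nonneg _)).trans (hU.hess x v)
      grad := hU.grad }

theorem T3S_mn {U : E → ℝ} (hU : Continuous U) {r : ℝ} (hr : 0 < r) (e : E) :
    mn (SCL_dl U r) e = r⁻¹ * mn U e := by
  unfold Pool.Agent.H73.KG.mn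
  rw [SCL_int hU hr, ← integral_const_mul]
  congr 1
  funext x
  unfold li
  rw [inner_smul_right]

theorem T3S_t3 {U : E → ℝ} (hU : Continuous U) {r : ℝ} (hr : 0 < r) (u v w : E) :
    t3 (SCL_dl U r) u v w = r⁻¹ ^ 3 * t3 U u v w := by
  unfold Pool.Agent.H73.KG.t3
  rw [SCL_int hU hr, ← integral_const_mul]
  congr 1
  funext x
  rw [T3S_mn hU hr, T3S_mn hU hr, T3S_mn hU hr]
  unfold li
  rw [inner_smul_right, inner_smul_right, inner_smul_right]
  ring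

variable (E) in
theorem t3s_thm : T3SStmt E := by
  intro t0 κ ht0 hκ hTK U a hU ha hcov θ hθ ι _ b
  have ha0 : 0 < a := by linarith
  set r : ℝ := Real.sqrt a with hr
  have hr0 : 0 < r := Real.sqrt_pos.2 ha0
  have hr2 : r ^ 2 = a := Real.sq_sqrt ha0.le
  have hc : Continuous U := by
    obtain ⟨⟨C, hU⟩, -⟩ := hU
    exact hU.smooth.continuous
  have h1 : PP (SCL_dl U r) t0 := by
    refine T3S_pp_mono (SCL_pp hU hr0) ht0 ?_
    rw [hr2]
    nlinarith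
  have h2 := hTK _ h1 (SCL_cov hc hr0 hcov hr2) θ hθ ι b
  simp only [T3S_t3 hc hr0] at h2
  have h3 : ∑ i, ∑ j, (r⁻¹ ^ 3 * t3 U θ (b i) (b j)) ^ 2 =
      (r⁻¹ ^ 3) ^ 2 * ∑ i, ∑ j, (t3 U θ (b i) (b j)) ^ 2 := by
    simp only [Finset.mul_sum, mul_pow]
  rw [h3] at h2
  have h4 : a ^ 3 * ((r⁻¹ ^ 3) ^ 2 * ∑ i, ∑ j, (t3 U θ (b i) (b j)) ^ 2) =
      ∑ i, ∑ j, (t3 U θ (b i) (b j)) ^ 2 := by
    rw [← hr2]
    field_simp
  rw [← h4]
  exact mul_le_mul_of_nonneg_left h2 (by positivity)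

end Pool.Agent.H78.KP
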